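import Pool.Agent.helper99.VN.SpecU
import Pool.Agent.helper61.VQ.CNV

/-!
# Row vn:CNVN (MP_07c750_an): staying close, frames
-/

set_option autoImplicit false

open scoped MatrixGroups ContDiff Topology UpperHalfPlane ComplexConjugate ENNReal
open UpperHalfPlane MeasureTheory Filter Set

namespace Pool.Agent.VN

open Pool.Agent.RS Pool.Agent.VQ

noncomputable section

/-- Gronwall, the form of FLGN -/
def CNVN_G (D : Dyn) (k C c0 : ℝ) : Prop := ∀ (E E' t η : ℝ) (g g' : SL(2, ℝ)), |E| ≤ k →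
  |E'| ≤ k → 0 < η → EN.nr η (g⁻¹ * g') → |E - E'| ≤ η → η * Real.exp (C * |t|) ≤ c0 →
  EN.nr (C * η * Real.exp (C * |t|)) ((D.fl E t g)⁻¹ * D.fl E' t g')

theorem CNVN_chain {D : Dyn} {k C c0 ρ1 t r : ℝ} {N : ℕ} {w : ℕ → SL(2, ℝ) × ℝ} (hC : 1 ≤ C)
    (hF : CNVN_G D k C c0) (hk : 0 < k) (hρk : ρ1 ≤ k)
    (hadd : ∀ E : ℝ, |E| ≤ k → ∀ (s t : ℝ) (g : SL(2, ℝ)), D.fl E (s + t) g = D.fl E s (D.fl E t g))
    (hrev : ∀ E : ℝ, |E| ≤ k → ∀ (t : ℝ) (g : SL(2, ℝ)),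
      D.fl E (-t) (g * kM (Real.pi / 2)) = D.fl E t g * kM (Real.pi / 2))
    (hρ : 0 < ρ1) (hρ8 : ρ1 ≤ 1 / 8) (ht : 1 ≤ t) (hrρ : r ≤ ρ1) (hJP : JP D t r N w)
    (s v : ℝ) (hs : 0 ≤ s) (hv : 0 < v) (hvt : v ≤ t) (hsv : s + v ≤ N * t)
    (hc : 3 * C * ρ1 * Real.exp (C * v) ≤ c0) :
    ∃ i' : ℕ, (i' = 0 ∨ i' = 2) ∧ EN.nr (3 * C ^ 2 * ρ1 * Real.exp (C * v))
      ((D.fl 0 v (frZ D t w s))⁻¹ * (frZ D t w (s + v) * kM ((i' : ℝ) * (Real.pi / 2)))) := by
  have ht0 : 0 < t := by linarith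
  have hC0 : 0 < C := by linarith
  set j := ⌊s / t⌋₊ with hj
  have hj1 : (j : ℝ) * t ≤ s := by
    have := Nat.floor_le (div_nonneg hs ht0.le)
    rwa [← hj, le_div_iff₀ ht0] at this
  have hj2 : s < (j + 1) * t := by
    have := Nat.lt_floor_add_one (s / t)
    rwa [← hj, div_lt_iff₀ ht0] at this
  have hjN : j < N := by
    have h1 : (j : ℝ) * t < N * t := by linarith
    have h2 := lt_of_mul_lt_mul_right h1 ht0.le
    exact_mod_cast h2
  obtain ⟨hNb, hE1, hE2⟩ := hJP j hjN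
  have hr8 : r ≤ 1 / 8 := hrρ.trans hρ8
  set E := (w j).2 with hE
  set g := frZ D t w s with hg
  have hgdef : g = D.fl E (s - j * t) (w j).1 := rfl
  have hE8 : |E| ≤ k := hE1.trans (hrρ.trans hρk)
  have h08 : |(0 : ℝ)| ≤ k := by rw [abs_zero]; exact hk.le
  have hexp : ∀ u : ℝ, 0 ≤ u → 1 ≤ Real.exp (C * u) := fun u hu =>
    Real.one_le_exp (by positivity)
  -- the first comparison
  have hcomp : ∀ u : ℝ, 0 ≤ u → u ≤ v →
      EN.nr (C * ρ1 * Real.exp (C * u)) ((D.fl 0 u g)⁻¹ * D.fl E u g) := by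
    intro u hu huv
    have h1 := hF 0 E u ρ1 g g h08 hE8 hρ (by rw [inv_mul_cancel]; exact CNV_one hρ)
      (by rw [zero_sub, abs_neg]; exact hE1.trans hrρ) (by
        rw [abs_of_nonneg hu]
        have h2 : Real.exp (C * u) ≤ Real.exp (C * v) :=
          Real.exp_le_exp.2 (mul_le_mul_of_nonneg_left huv hC0.le)
        have h3 : ρ1 * Real.exp (C * u) ≤ ρ1 * Real.exp (C * v) :=
          mul_le_mul_of_nonneg_left h2 hρ.le
        have h4 : 0 < ρ1 * Real.exp (C * v) := by positivity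
        nlinarith)
    rwa [abs_of_nonneg hu] at h1
  set j' := ⌊(s + v) / t⌋₊ with hj'
  have hj'1 : (j' : ℝ) * t ≤ s + v := by
    have := Nat.floor_le (div_nonneg (add_nonneg hs hv.le) ht0.le)
    rwa [← hj', le_div_iff₀ ht0] at this
  have hj'2 : s + v < (j' + 1) * t := by
    have := Nat.lt_floor_add_one ((s + v) / t)
    rwa [← hj', div_lt_iff₀ ht0] at this
  have hjj : j ≤ j' := by
    have h1 : (j : ℝ) * t < (j' + 1 : ℕ) * t := by push_cast; linarith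
    have h2 := lt_of_mul_lt_mul_right h1 ht0.le
    have h3 : j < j' + 1 := by exact_mod_cast h2
    omega
  have hjj' : j' ≤ j + 1 := by
    have h1 : (j' : ℝ) * t < (j + 2 : ℕ) * t := by push_cast; linarith
    have h2 := lt_of_mul_lt_mul_right h1 ht0.le
    have h3 : j' < j + 2 := by exact_mod_cast h2
    omega
  have hA : frZ D t w (s + v) = D.fl (w j').2 (s + v - j' * t) (w j').1 := rfl
  rcases (by omega : j' = j ∨ j' = j + 1) with h | h
  · -- no jump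
    refine ⟨0, Or.inl rfl, ?_⟩
    have hA' : frZ D t w (s + v) = D.fl E v g := by
      rw [hA, h, hgdef, ← hadd E hE8]
      congr 1
      ring
    rw [hA', CNV_kz, mul_one]
    refine CNV_mono ?_ (hcomp v hv.le le_rfl)
    have h4 : 0 < ρ1 * Real.exp (C * v) := by positivity
    have h5 : C ≤ 3 * C ^ 2 := by nlinarith
    calc C * ρ1 * Real.exp (C * v) = C * (ρ1 * Real.exp (C * v)) := by ring
      _ ≤ 3 * C ^ 2 * (ρ1 * Real.exp (C * v)) := mul_le_mul_of_nonneg_right h5 h4.le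
      _ = _ := by ring
  · -- one jump
    have hv1 : 0 ≤ (j + 1) * t - s := by linarith
    rw [h] at hj'1
    push_cast at hj'1
    set v1 := (j + 1) * t - s with hv1d
    set v2 := s + v - (j + 1) * t with hv2d
    have hv2 : 0 ≤ v2 := by linarith
    have hv12 : v2 + v1 = v := by rw [hv1d, hv2d]; ring
    have hv1v : v1 ≤ v := by linarith
    have hE' : |(w (j + 1)).2| ≤ k := hE2.trans (hrρ.trans hρk)
    have hph : (D.ph t (w j)).1 = D.fl E v1 g := by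
      show D.fl E t (w j).1 = _
      rw [hgdef, ← hadd E hE8]
      congr 1
      rw [hv1d]
      ring
    have hb : (D.fl E v1 g)⁻¹ * (w (j + 1)).1 ∈ Bo r := by
      rw [← hph]
      exact hNb.1
    have key : ∀ i' : ℕ, (i' = 0 ∨ i' = 2) →
        EN.nr r ((D.fl E v1 g)⁻¹ * (w (j + 1)).1 * kM ((i' : ℝ) * (Real.pi / 2))) →
        EN.nr (3 * C ^ 2 * ρ1 * Real.exp (C * v)) ((D.fl 0 v g)⁻¹ *
          (frZ D t w (s + v) * kM ((i' : ℝ) * (Real.pi / 2)))) := by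
      intro i' hi' hnr
      set η1 := C * ρ1 * Real.exp (C * v1) with hη1
      have hη1p : 0 < η1 := by positivity
      have hρη : ρ1 ≤ η1 := by
        have e1 := hexp v1 hv1
        have e2 : 1 ≤ C * Real.exp (C * v1) := by nlinarith
        have e3 : ρ1 * 1 ≤ ρ1 * (C * Real.exp (C * v1)) := mul_le_mul_of_nonneg_left e2 hρ.le
        rw [hη1]
        linarith
      have n1 := hcomp v1 hv1 hv1v
      have n2 := CNV_mul hη1p n1 hnr
      have n3 : EN.nr (3 * η1) ((D.fl 0 v1 g)⁻¹ * ((w (j + 1)).1 * kM ((i' : ℝ) * (Real.pi / 2)))) := by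
        have e1 : (D.fl 0 v1 g)⁻¹ * ((w (j + 1)).1 * kM ((i' : ℝ) * (Real.pi / 2))) =
          (D.fl 0 v1 g)⁻¹ * D.fl E v1 g *
            ((D.fl E v1 g)⁻¹ * (w (j + 1)).1 * kM ((i' : ℝ) * (Real.pi / 2))) := by group
        rw [e1]
        refine CNV_mono ?_ n2
        have e2 : η1 * r ≤ η1 * (1 / 8) := mul_le_mul_of_nonneg_left hr8 hη1p.le
        linarith
      have hexp2 : Real.exp (C * v1) * Real.exp (C * v2) = Real.exp (C * v) := by
        rw [← Real.exp_add, ← mul_add, add_comm v1 v2, hv12]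
      have n4 := hF 0 (w (j + 1)).2 v2 (3 * η1) (D.fl 0 v1 g)
        ((w (j + 1)).1 * kM ((i' : ℝ) * (Real.pi / 2))) h08 hE' (by positivity) n3
        (by rw [zero_sub, abs_neg]; linarith) (by
          rw [abs_of_nonneg hv2, hη1]
          calc 3 * (C * ρ1 * Real.exp (C * v1)) * Real.exp (C * v2) =
              3 * C * ρ1 * (Real.exp (C * v1) * Real.exp (C * v2)) := by ring
            _ ≤ c0 := by rw [hexp2]; exact hc)
      rw [abs_of_nonneg hv2, ← hadd 0 h08, hv12] at n4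
      have e3 : C * (3 * η1) * Real.exp (C * v2) = 3 * C ^ 2 * ρ1 * Real.exp (C * v) := by
        rw [hη1, ← hexp2]
        ring
      rw [e3] at n4
      have e4 : D.fl (w (j + 1)).2 v2 ((w (j + 1)).1 * kM ((i' : ℝ) * (Real.pi / 2))) =
          frZ D t w (s + v) * kM ((i' : ℝ) * (Real.pi / 2)) := by
        rw [hA, h]
        have e5 := CNV_rev (fl := D.fl (w (j + 1)).2) (hrev _ hE') i' v2 (w (j + 1)).1
        have e6 : ((-1 : ℝ)) ^ i' * v2 = v2 := by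
          rcases hi' with rfl | rfl <;> norm_num
        rw [e6] at e5
        rw [← e5, hv2d]
        push_cast
        rfl
      rw [e4] at n4
      exact n4
    rcases CNV_bo hb with h1 | h1
    · exact ⟨0, Or.inl rfl, key 0 (Or.inl rfl) h1⟩
    · exact ⟨2, Or.inr rfl, key 2 (Or.inr rfl) h1⟩


/-- the signs -/
theorem CNVN_sg {a : ℝ} {b : SL(2, ℝ)} {i' : ℕ} (hi : i' = 0 ∨ i' = 2) (h : EN.nr a (b * kM ((i' : ℝ) * (Real.pi / 2)))) : b ∈ Bo a := by
  rcases hi with rfl | rfl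
  · rw [CNV_kz, mul_one] at h
    exact Or.inl h
  · right
    intro i j
    have h1 := h i j
    rw [CNV_kk, ← abs_neg] at h1
    have h2 : -(-(b.1 i j) - (1 : Matrix (Fin 2) (Fin 2) ℝ) i j) = b.1 i j + (1 : Matrix (Fin 2) (Fin 2) ℝ) i j := by ring
    rwa [h2] at h1

theorem CNVN_proof (hFLBN : FLBN_stmt) (hFLGN : FLGN_stmt) (hFSTN : FSTN_stmt) (hBOXN : BOXN_stmt) : CNVN_stmt := by
  intro Γ k B hΓ hk
  obtain ⟨C1, c0, hC1, hc0, hG⟩ := hFLGN Γ k B hΓ hk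
  obtain ⟨Cs, hCs, hS⟩ := hFSTN Γ k B hΓ hk
  obtain ⟨b1, b2, -, b4, b5, -, -, -⟩ := hBOXN
  have hC0 : 0 < C1 := by linarith
  refine ⟨C1 + Cs, by linarith, fun C2 hC2 => ?_⟩
  set K : ℝ := 12 * C1 ^ 3 * Real.exp C1 * C2 with hK
  have hexpC : 1 ≤ Real.exp C1 := Real.one_le_exp hC0.le
  have hC3 : 1 ≤ C1 ^ 3 := one_le_pow₀ hC1
  have hK0 : 0 < K := by positivity
  refine ⟨C1 * C2 + 12 * C1 ^ 3 * Real.exp C1 + 1, min (min (1 / 8) k) ((c0 / K) ^ 2), ?_, lt_min (lt_min (by norm_num) hk) (by positivity),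
    (min_le_left _ _).trans (min_le_left _ _), (min_le_left _ _).trans (min_le_right _ _), ?_⟩
  · have : 0 ≤ C1 * C2 + 12 * C1 ^ 3 * Real.exp C1 := by positivity
    linarith
  intro D ρ1 hD hρ hρ10
  have hρ8 : ρ1 ≤ 1 / 8 := hρ10.trans ((min_le_left _ _).trans (min_le_left _ _))
  have hρk : ρ1 ≤ k := hρ10.trans ((min_le_left _ _).trans (min_le_right _ _))
  have h08 : |(0 : ℝ)| ≤ k := by rw [abs_zero]; exact hk.le
  have hadd : ∀ E : ℝ, |E| ≤ k → ∀ (s t : ℝ) (g : SL(2, ℝ)),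
      D.fl E (s + t) g = D.fl E s (D.fl E t g) := fun E hE => (hFLBN Γ k B D hΓ hD E hE).1
  have hrev : ∀ E : ℝ, |E| ≤ k → ∀ (t : ℝ) (g : SL(2, ℝ)),
      D.fl E (-t) (g * kM (Real.pi / 2)) = D.fl E t g * kM (Real.pi / 2) :=
    fun E hE => (hFLBN Γ k B D hΓ hD E hE).2.2
  have hF : CNVN_G D k C1 c0 := fun E E' t η g g' => hG D hD E E' t η g g'
  set q : ℝ := √ρ1 with hq
  have hq0 : 0 < q := Real.sqrt_pos.2 hρ
  have hqq : ρ1 = q * q := (Real.mul_self_sqrt hρ.le).symm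
  have hqr : ρ1 ^ (-(1 / 2) : ℝ) = q⁻¹ := by
    rw [Real.rpow_neg hρ.le, ← Real.sqrt_eq_rpow]
  have hqh : ρ1 ^ (1 / 2 : ℝ) = q := by
    rw [← Real.sqrt_eq_rpow]
  have hqm : K * q ≤ c0 := by
    have h1 : q ≤ c0 / K := by
      rw [hq]
      apply Real.sqrt_le_iff.2
      exact ⟨by positivity, hρ10.trans (min_le_right _ _)⟩
    rw [le_div_iff₀ hK0] at h1
    linarith
  have hρe : ∀ u : ℝ, 0 ≤ u → Real.exp ((C1 + Cs) * u) ≤ ρ1 ^ (-(1 / 2) : ℝ) → ρ1 * Real.exp (C1 * u) ≤ q := by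
    intro u hu0 hu
    rw [hqr] at hu
    have h1 : Real.exp (C1 * u) ≤ Real.exp ((C1 + Cs) * u) := Real.exp_le_exp.2 (by nlinarith)
    calc ρ1 * Real.exp (C1 * u) ≤ ρ1 * q⁻¹ := mul_le_mul_of_nonneg_left (h1.trans hu) hρ.le
      _ = q := by rw [hqq]; field_simp
  rw [hqh]
  refine ⟨?_, ?_, ?_⟩
  · -- (1)
    intro x y s i hs hnr
    have h1 : C2 * ρ1 * Real.exp (C1 * |s|) ≤ C2 * q := by
      have := mul_le_mul_of_nonneg_left (hρe _ (abs_nonneg s) hs) (by linarith : (0 : ℝ) ≤ C2)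
      linarith
    have hKC : C2 ≤ K := by
      have e1 : 1 ≤ 12 * C1 ^ 3 * Real.exp C1 := by nlinarith
      rw [hK]
      exact le_mul_of_one_le_left (by linarith) e1
    have hCq : C2 * q ≤ c0 := (mul_le_mul_of_nonneg_right hKC hq0.le).trans hqm
    have h2 := hF 0 0 s (C2 * ρ1) x (y * kM (i * (Real.pi / 2))) h08 h08 (by positivity)
      (by rw [← mul_assoc]; exact hnr) (by rw [sub_self, abs_zero]; positivity) (by linarith)
    refine b2 _ _ _ ?_ (b1 _ _ h2)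
    have h3 := mul_le_mul_of_nonneg_left h1 hC0.le
    have h4 : 0 ≤ (12 * C1 ^ 3 * Real.exp C1 + 1) * q := by positivity
    nlinarith
  · -- (2)
    intro y s v u i hv hu hu1
    have hcomm : D.fl 0 s (D.fl 0 ((-1) ^ i * v) (y * kM (i * (Real.pi / 2)))) = D.fl 0 ((-1) ^ i * v) (D.fl 0 s (y * kM (i * (Real.pi / 2)))) := by
      rw [← hadd 0 h08, ← hadd 0 h08]
      congr 1
      ring
    rw [CNV_rev (fl := D.fl 0) (hrev 0 h08) i v y, hcomm]
    have hv' : |(-1) ^ i * v| ≤ u := by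
      rw [abs_mul, abs_pow, abs_neg, abs_one, one_pow, one_mul]
      exact hv
    have h1 := (((hS D hD).2 0 (D.fl 0 s (y * kM (i * (Real.pi / 2)))) h08).2.2 u ((-1) ^ i * v) hu hu1 hv').1
    have h2 := b4 _ _ (b1 _ _ h1)
    have h3 : ∀ a b : SL(2, ℝ), (a⁻¹ * b)⁻¹ = b⁻¹ * a := fun a b => by group
    rw [h3] at h2
    have h9 : Cs * u ≤ (C1 + Cs) * u := mul_le_mul_of_nonneg_right (by linarith) hu.le
    exact b2 _ _ _ h9 h2
  · -- (3)
    intro t r N w ht hr hrρ hJP s v x i hs hv hvt hsv he1 he2 hvx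
    rcases hv.eq_or_lt with hv0 | hv0
    · rw [← hv0, add_zero, hD.fl0, inv_mul_cancel]
      exact b5 _ (by positivity)
    have hex : ρ1 * (Real.exp (C1 * v) * Real.exp (C1 * |x|)) ≤ Real.exp C1 * q := by
      rcases hvx with h | h | h
      · exact absurd h hv0.ne'
      · rw [h, abs_zero, mul_zero, Real.exp_zero, mul_one]
        have := hρe _ hv he1
        nlinarith
      · have e1 : Real.exp (C1 * v) ≤ Real.exp C1 := Real.exp_le_exp.2 (by nlinarith)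
        have e2 := hρe _ (abs_nonneg x) he2
        have e3 : 0 ≤ ρ1 * Real.exp (C1 * |x|) := by positivity
        calc ρ1 * (Real.exp (C1 * v) * Real.exp (C1 * |x|)) =
            Real.exp (C1 * v) * (ρ1 * Real.exp (C1 * |x|)) := by ring
          _ ≤ Real.exp C1 * q := mul_le_mul e1 e2 e3 (by positivity)
    have hbig : C1 * (4 * (3 * C1 ^ 2 * ρ1 * Real.exp (C1 * v))) * Real.exp (C1 * |x|) ≤ 12 * C1 ^ 3 * Real.exp C1 * q := by
      calc C1 * (4 * (3 * C1 ^ 2 * ρ1 * Real.exp (C1 * v))) * Real.exp (C1 * |x|) =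
          12 * C1 ^ 3 * (ρ1 * (Real.exp (C1 * v) * Real.exp (C1 * |x|))) := by ring
        _ ≤ 12 * C1 ^ 3 * (Real.exp C1 * q) := mul_le_mul_of_nonneg_left hex (by positivity)
        _ = 12 * C1 ^ 3 * Real.exp C1 * q := by ring
    have hKq : 12 * C1 ^ 3 * Real.exp C1 * q ≤ c0 := by
      refine le_trans ?_ hqm
      rw [hK]
      exact mul_le_mul_of_nonneg_right (le_mul_of_one_le_right (by positivity) hC2) hq0.le
    have hη : 0 < 3 * C1 ^ 2 * ρ1 * Real.exp (C1 * v) := by positivity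
    have hx1 : 1 ≤ Real.exp (C1 * |x|) := Real.one_le_exp (by positivity)
    have hmid : 4 * (3 * C1 ^ 2 * ρ1 * Real.exp (C1 * v)) * Real.exp (C1 * |x|) ≤ c0 := by
      have e1 : 0 ≤ 4 * (3 * C1 ^ 2 * ρ1 * Real.exp (C1 * v)) * Real.exp (C1 * |x|) := by positivity
      have e2 : 4 * (3 * C1 ^ 2 * ρ1 * Real.exp (C1 * v)) * Real.exp (C1 * |x|) ≤
          C1 * (4 * (3 * C1 ^ 2 * ρ1 * Real.exp (C1 * v)) * Real.exp (C1 * |x|)) :=
        le_mul_of_one_le_left e1 hC1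
      have e3 : C1 * (4 * (3 * C1 ^ 2 * ρ1 * Real.exp (C1 * v)) * Real.exp (C1 * |x|)) =
          C1 * (4 * (3 * C1 ^ 2 * ρ1 * Real.exp (C1 * v))) * Real.exp (C1 * |x|) := by ring
      linarith
    have hc : 3 * C1 * ρ1 * Real.exp (C1 * v) ≤ c0 := by
      have e1 : 3 * C1 * ρ1 * Real.exp (C1 * v) ≤ 3 * C1 ^ 2 * ρ1 * Real.exp (C1 * v) := by
        have e2 : 0 ≤ 3 * C1 * (ρ1 * Real.exp (C1 * v)) := by positivity
        have e3 : 3 * C1 * (ρ1 * Real.exp (C1 * v)) ≤ C1 * (3 * C1 * (ρ1 * Real.exp (C1 * v))) :=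
          le_mul_of_one_le_left e2 hC1
        have e4 : C1 * (3 * C1 * (ρ1 * Real.exp (C1 * v))) = 3 * C1 ^ 2 * ρ1 * Real.exp (C1 * v) := by
          ring
        have e5 : 3 * C1 * (ρ1 * Real.exp (C1 * v)) = 3 * C1 * ρ1 * Real.exp (C1 * v) := by ring
        linarith
      have e6 : 3 * C1 ^ 2 * ρ1 * Real.exp (C1 * v) ≤
          4 * (3 * C1 ^ 2 * ρ1 * Real.exp (C1 * v)) * Real.exp (C1 * |x|) := by nlinarith
      linarith
    obtain ⟨i', hi', hnr⟩ := CNVN_chain hC1 hF hk hρk hadd hrev hρ hρ8 ht hrρ hJP s v hs hv0 hvt hsv hc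
    set θ : ℝ := (i : ℝ) * (Real.pi / 2) with hθ
    set A : SL(2, ℝ) := frZ D t w (s + v) with hA
    set Bb : SL(2, ℝ) := D.fl 0 v (frZ D t w s) with hBb
    have h4 : EN.nr (4 * (3 * C1 ^ 2 * ρ1 * Real.exp (C1 * v))) ((Bb * kM θ)⁻¹ * (A * kM ((i' : ℝ) * (Real.pi / 2)) * kM θ)) := by
      have e1 : (Bb * kM θ)⁻¹ * (A * kM ((i' : ℝ) * (Real.pi / 2)) * kM θ) = (kM θ)⁻¹ * (Bb⁻¹ * (A * kM ((i' : ℝ) * (Real.pi / 2)))) * kM θ := by group
      rw [e1]
      exact CNV_conj θ hnr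
    have h5 := hF 0 0 x (4 * (3 * C1 ^ 2 * ρ1 * Real.exp (C1 * v))) (Bb * kM θ) (A * kM ((i' : ℝ) * (Real.pi / 2)) * kM θ) h08 h08 (by positivity) h4
      (by rw [sub_self, abs_zero]; positivity) hmid
    have hcm : A * kM ((i' : ℝ) * (Real.pi / 2)) * kM θ = A * kM θ * kM ((i' : ℝ) * (Real.pi / 2)) := by
      rw [mul_assoc, mul_assoc, ← CNV_kadd, ← CNV_kadd, add_comm ((i' : ℝ) * (Real.pi / 2))]
    have hsg : ((-1 : ℝ)) ^ i' * x = x := by
      rcases hi' with rfl | rfl <;> norm_num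
    have h6 := CNV_rev (fl := D.fl 0) (hrev 0 h08) i' x (A * kM θ)
    rw [hsg] at h6
    have e7 : ∀ a b c : SL(2, ℝ), a⁻¹ * (b * c) = a⁻¹ * b * c := fun a b c => (mul_assoc _ _ _).symm
    rw [hcm, ← h6, e7] at h5
    have h7 := b4 _ _ (CNVN_sg hi' h5)
    have h3 : ∀ a b : SL(2, ℝ), (a⁻¹ * b)⁻¹ = b⁻¹ * a := fun a b => by group
    rw [h3] at h7
    refine b2 _ _ _ (hbig.trans ?_) h7
    have h8 : 0 ≤ (C1 * C2 + 1) * q := by positivity
    nlinarith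

end

end Pool.Agent.VN
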