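import Pool.Agent.helper74.VN.SpecN
import Pool.Agent.helper54.VQ.VI2

set_option autoImplicit false

open scoped MatrixGroups ContDiff Topology UpperHalfPlane ComplexConjugate ENNReal
open UpperHalfPlane MeasureTheory Filter Set

namespace Pool.Agent.VN

open Pool.Agent.RS Pool.Agent.VQ
open Pool.Agent.RPQ (IsOp)

theorem NI2_proof (hNTN : NTN_stmt) (hKPZ : VQ.KPZ_stmt) (hPSC : VQ.PSC_stmt) (hGMG : GMG_stmt) : NI2_stmt := by
  intro Γ ch k B hΓ hch hk
  obtain ⟨C, hC, hV⟩ := hNTN k hk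
  refine ⟨C, hC, ?_⟩
  intro A hA
  obtain ⟨R0, hR0, hV⟩ := hV ch B A hch hA
  refine ⟨1 / 6, R0, by norm_num, hR0, ?_⟩
  intro R D F f hR hD hF hf T hT
  have hPS := hPSC Γ F R hΓ hF
  obtain ⟨hm1, hm2⟩ := VI2_meas hGMG R hPS.meas
  obtain ⟨-, hV⟩ := hV R Γ F D hR (Or.inl ⟨hΓ, hF⟩) hD
  obtain ⟨-, -, hKZ, hV⟩ := hV f (A.tu R) hf.inv
  have hR1 : 0 < R := by linarith
  have hc0 : 0 ≤ 1 + R ^ (-(1 / 6) : ℝ) := by positivity
  refine ContinuousLinearMap.opNorm_le_bound T hc0 ?_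
  intro v0
  refine DenseRange.induction_on (Lp.simpleFunc.denseRange (p := 2) (μ := (mW R).restrict (DW F)) (E := ℂ) (by norm_num)) v0
    (p := fun v => ‖T v‖ ≤ (1 + R ^ (-(1 / 6) : ℝ)) * ‖v‖)
    (isClosed_le T.continuous.norm (continuous_const.mul continuous_norm)) ?_
  intro a
  obtain ⟨u, hu⟩ : ∃ u : SimpleFunc (SL(2, ℝ) × ℝ) ℂ, u = Lp.simpleFunc.toSimpleFunc a := ⟨_, rfl⟩
  have hua : (u : SL(2, ℝ) × ℝ → ℂ) =ᵐ[(mW R).restrict (DW F)] (a : Lp ℂ 2 ((mW R).restrict (DW F))) := by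
    rw [hu]
    exact Lp.simpleFunc.toSimpleFunc_eq_toFun a
  obtain ⟨w, hw1, hw2, hw3, hw4⟩ := VI2_ext R hF hPS u u.measurable u.exists_forall_norm_le
  obtain ⟨v, hv⟩ : ∃ v : Lp ℂ 2 ((mW R).restrict (DW F)), v = a := ⟨_, rfl⟩
  rw [← hv] at hua
  show ‖T a‖ ≤ (1 + R ^ (-(1 / 6) : ℝ)) * ‖(a : Lp ℂ 2 ((mW R).restrict (DW F)))‖
  rw [← hv]
  have hPWm : MeasurableSet (PW F 2 R) := by
    have h1 : MeasurableSet (dG F) := by
      have h2 : dG F = (fun g : SL(2, ℝ) => (g, (0 : ℝ))) ⁻¹' (DW F) := by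
        ext g
        constructor
        · intro hg
          exact ⟨hg, mem_univ _⟩
        · intro hg
          exact hg.1
      rw [h2]
      exact (measurable_id.prodMk measurable_const) hPS.meas
    exact h1.prod measurableSet_Icc
  have hvw : (v : SL(2, ℝ) × ℝ → ℂ) =ᵐ[(mW R).restrict (DW F)] w := by
    have h1 : ∀ᵐ p ∂((mW R).restrict (DW F)), p ∈ PW F 2 R := by
      rw [hm2]
      exact ae_restrict_mem hPWm
    filter_upwards [hua, h1] with p hp1 hp2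
    rw [← hp1, hw3 p hp2]
  have hTv : (T v : SL(2, ℝ) × ℝ → ℂ) =ᵐ[(mW R).restrict (DW F)] Op (KB D ch A R f) w := by
    refine (hT v).trans (Filter.Eventually.of_forall fun y => ?_)
    show ∫ z, perZ Γ (KB D ch A R f) y z * v z ∂((mW R).restrict (DW F)) = Op (KB D ch A R f) w y
    have e1 : ∫ z, perZ Γ (KB D ch A R f) y z * v z ∂((mW R).restrict (DW F)) =
        ∫ z, perZ Γ (KB D ch A R f) y z * w z ∂((mW R).restrict (DW F)) := by
      refine integral_congr_ae ?_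
      filter_upwards [hvw] with p hp
      rw [hp]
    rw [e1, ((hKPZ Γ (SL(2, ℝ) × ℝ) (mW R) (DW F) dW hPS).1 _ hKZ).2.2.2 w hw1.meas hw1.bdd hw4 y, hm1]
    unfold Op
    refine setIntegral_eq_integral_of_forall_compl_eq_zero ?_
    intro q hq
    have : q.2 ∉ Wi 2 R := fun h => hq ⟨mem_univ _, h⟩
    rw [hw2 q this, mul_zero]
  have hn1 : ‖T v‖ ^ 2 = nP F 2 R (Op (KB D ch A R f) w) := by
    rw [VI2_norm]
    unfold nP
    rw [← hm2]
    refine integral_congr_ae ?_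
    filter_upwards [hTv] with p hp
    rw [hp]
  have hn2 : ‖v‖ ^ 2 = nP F 2 R w := by
    rw [VI2_norm]
    unfold nP
    rw [← hm2]
    refine integral_congr_ae ?_
    filter_upwards [hvw] with p hp
    rw [hp]
  have h3 := hV w hw1
  rw [← hn1, ← hn2, ← mul_pow] at h3
  exact (pow_le_pow_iff_left₀ (norm_nonneg _) (mul_nonneg hc0 (norm_nonneg _)) two_ne_zero).1 h3

end Pool.Agent.VN
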