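import Pool.Agent.helper74.VN.SpecA
import Pool.Agent.helper44.VQ.VQA

/-!
# MP_07c750, project VN, row NQA: the frame on the energy window
-/

set_option autoImplicit false

open scoped MatrixGroups ContDiff Topology UpperHalfPlane ComplexConjugate ENNReal
open UpperHalfPlane MeasureTheory Filter Set

namespace Pool.Agent.VN

open Pool.Agent.RS Pool.Agent.VQ

noncomputable section

theorem NQA_proof (h1 : NIS_stmt) (h2 : NQS_stmt) : NQA_stmt := by
  intro ch ζ k hch hk hζ hζ'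
  obtain ⟨R1, hR1, H1⟩ := h1 ch ζ k hch hk hζ hζ'
  obtain ⟨R2, hR2, H2⟩ := h2 ch ζ k hch hk hζ hζ'
  refine ⟨max (max R1 R2) ((5 / k) ^ 4), hR1.trans ((le_max_left _ _).trans (le_max_left _ _)), ?_⟩
  intro R Γ F U hR hD hU
  have hRa : R1 ≤ R := (le_max_left _ _).trans ((le_max_left _ _).trans hR)
  have hRb : R2 ≤ R := (le_max_right _ _).trans ((le_max_left _ _).trans hR)
  have hRc : (5 / k) ^ 4 ≤ R := (le_max_right _ _).trans hR
  have hR0 : 1 ≤ R := hR1.trans hRa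
  have hF := VQA_meas hD
  obtain ⟨-, -, -, hQ, hS, hdual⟩ := H2 R Γ F U hRb hD hU
  have hV := fun φ => H1 R Γ F U φ hRa hD hU
  -- the window
  have hw : 2 * R ^ (-(1 / 4) : ℝ) < k / 2 := by
    have h5 : 0 < 5 / k := by positivity
    have e1 : 5 / k ≤ R ^ (1 / 4 : ℝ) := by
      have e2 : 5 / k = ((5 / k) ^ 4) ^ (1 / 4 : ℝ) := by
        rw [← Real.rpow_natCast (5 / k) 4, ← Real.rpow_mul h5.le]
        norm_num
      rw [e2]
      exact Real.rpow_le_rpow (by positivity) hRc (by norm_num)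
    rw [Real.rpow_neg (by linarith)]
    have e3 : (R ^ (1 / 4 : ℝ))⁻¹ ≤ (5 / k)⁻¹ := inv_anti₀ h5 e1
    rw [inv_div] at e3
    linarith
  have hWi : ∀ (g : SL(2, ℝ)), Wi 2 R ⊆ {E : ℝ | -(U (g • I) / 2) < E} := by
    intro g E hE
    have e1 := (hU.bd (g • I)).1
    have e2 := hE.1
    simp only [mem_ofPred_eq]
    linarith
  -- duality
  have hB : ∀ v, FP Γ F v → nn F (Qs U ch ζ R v) ≤ nP F 2 R v := by
    intro v hv
    have e1 := hS v hv
    obtain ⟨-, e2⟩ := hQ _ e1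
    have e3 := hdual _ v e1 hv
    have e4 : ∫ z in F, Qs U ch ζ R v z * conj (Qs U ch ζ R v z) = ((nn F (Qs U ch ζ R v) : ℝ) : ℂ) := by
      rw [nn, ← integral_complex_ofReal]
      congr 1
      funext z
      rw [Complex.mul_conj, Complex.normSq_eq_norm_sq]
    rw [e4] at e3
    have e5 := VQA_amgm (mP.restrict (PW F 2 R)) (QF U ch ζ R (Qs U ch ζ R v)) v (VQA_fp hF R e2) (VQA_fp hF R hv)
    rw [e3, Complex.norm_real] at e5
    have e6 := le_abs_self (nn F (Qs U ch ζ R v))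
    have e7 : nP F 2 R (QF U ch ζ R (Qs U ch ζ R v)) ≤ nn F (Qs U ch ζ R v) := by
      rw [VQA_nP e2.meas]
      have e8 := hV _ e1
      rw [VQA_split e2.meas hWi] at e8
      have e9 : 0 ≤ nn F (Qs U ch ζ R v) := integral_nonneg fun z => by positivity
      rw [← ENNReal.toReal_ofReal e9, ← e8]
      refine ENNReal.toReal_mono ?_ le_self_add
      rw [e8]
      exact ENNReal.ofReal_ne_top
    rw [Real.norm_eq_abs] at e5
    have e8 : nn F (Qs U ch ζ R v) ≤ (nP F 2 R (QF U ch ζ R (Qs U ch ζ R v)) + nP F 2 R v) / 2 := e6.trans e5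
    linarith
  refine ⟨fun φ hφ => ?_, hB⟩
  obtain ⟨-, hq⟩ := hQ φ hφ
  have e8 := hV _ hφ
  rw [VQA_split hq.meas hWi] at e8
  have e9 : 0 ≤ nn F φ := integral_nonneg fun z => by positivity
  have hsum : nn F φ = nP F 2 R (QF U ch ζ R φ) +
      (∫⁻ g in dG F, (∫⁻ E in {E : ℝ | -(U (g • I) / 2) < E} \ Wi 2 R, ‖QF U ch ζ R φ (g, E)‖ₑ ^ 2) ∂mG).toReal := by
    rw [VQA_nP hq.meas, ← ENNReal.toReal_add, e8, ENNReal.toReal_ofReal e9]
    · refine ne_top_of_le_ne_top ENNReal.ofReal_ne_top (e8 ▸ le_self_add)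
    · refine ne_top_of_le_ne_top ENNReal.ofReal_ne_top (e8 ▸ le_add_self)
  have hX := ENNReal.toReal_nonneg
    (a := ∫⁻ g in dG F, (∫⁻ E in {E : ℝ | -(U (g • I) / 2) < E} \ Wi 2 R, ‖QF U ch ζ R φ (g, E)‖ₑ ^ 2) ∂mG)
  refine ⟨by linarith, ?_⟩
  set w := Qs U ch ζ R (QF U ch ζ R φ) with hwdef
  have hwF : FH Γ F w := hS _ hq
  have f1 : nn F w ≤ nP F 2 R (QF U ch ζ R φ) := hB _ hq
  have f2 : ∫ z in F, φ z * conj (w z) = ((nP F 2 R (QF U ch ζ R φ) : ℝ) : ℂ) := by
    rw [hwdef, ← hdual φ _ hφ hq, nP, ← integral_complex_ofReal]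
    congr 1
    funext z
    rw [Complex.mul_conj, Complex.normSq_eq_norm_sq]
  obtain ⟨b1, hb1⟩ := hφ.supp
  obtain ⟨b2, hb2⟩ := hwF.supp
  have i1 : IntegrableOn (fun z => ‖w z‖ ^ 2) F := by
    apply VQA_int hF (hwF.cont.norm.pow 2)
    refine ⟨b2, fun z hz h0 => hb2 z hz fun h3 => h0 ?_⟩
    simp [h3]
  have i2 : IntegrableOn (fun z => ‖φ z‖ ^ 2) F := by
    apply VQA_int hF (hφ.cont.norm.pow 2)
    refine ⟨b1, fun z hz h0 => hb1 z hz fun h3 => h0 ?_⟩
    simp [h3]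
  have i3 : IntegrableOn (fun z => φ z * conj (w z)) F := by
    apply VQA_int hF (hφ.cont.mul (Complex.continuous_conj.comp hwF.cont))
    refine ⟨b1, fun z hz h0 => hb1 z hz fun h3 => h0 ?_⟩
    simp [h3]
  have i4 : IntegrableOn (fun z => (φ z * conj (w z)).re) F := i3.re
  have f3 : ∫ z in F, (φ z * conj (w z)).re = nP F 2 R (QF U ch ζ R φ) := by
    have := integral_re i3
    simp only [RCLike.re_eq_complex_re] at this
    rw [this, f2, Complex.ofReal_re]
  have f4 : nn F (fun z => w z - φ z) = nn F w - 2 * nP F 2 R (QF U ch ζ R φ) + nn F φ := by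
    have g1 : ∀ z, ‖w z - φ z‖ ^ 2 = ‖w z‖ ^ 2 - 2 * (φ z * conj (w z)).re + ‖φ z‖ ^ 2 := by
      intro z
      rw [← Complex.normSq_eq_norm_sq, ← Complex.normSq_eq_norm_sq, ← Complex.normSq_eq_norm_sq, Complex.normSq_sub]
      have : (w z * conj (φ z)).re = (φ z * conj (w z)).re := by
        simp only [Complex.mul_re, Complex.conj_re, Complex.conj_im]
        ring
      rw [this]
      ring
    have g2 := integral_add (i1.sub (i4.const_mul 2)) i2
    have g3 := integral_sub i1 (i4.const_mul 2)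
    have g4 := integral_const_mul (μ := volume.restrict F) 2 (fun z => (φ z * conj (w z)).re)
    simp only [Pi.sub_apply] at g2 g3
    rw [g3, g4, f3] at g2
    rw [nn, nn, nn, ← g2]
    simp only [g1]
  rw [f4]
  linarith

end

end Pool.Agent.VN
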